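import Pool.Agent.H91.BE.Defs

/-! Elementary properties of bar systems: linear scale, uniform closeness, supermultiplicativity. -/

set_option autoImplicit false

open Filter Topology
open scoped ENNReal

namespace Pool.Agent.H91.BE

variable {G : Type} [Group G] (B : BarSystem G)

theorem growth_mono {b b' : ℕ → ℕ} (h : ∀ᶠ k in atTop, b k ≤ b' k) : growth b ≤ growth b' := by
  unfold growth
  apply limsup_le_limsup
  · filter_upwards [h] with k hk
    apply ENNReal.ofReal_le_ofReal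
    apply div_le_div_of_nonneg_right _ (Nat.cast_nonneg k)
    exact Real.posLog_le_posLog (Nat.cast_nonneg _) (by exact_mod_cast hk)
  · isBoundedDefault
  · isBoundedDefault

theorem growth_const (n : ℕ) : growth (fun _ => n) = 0 := by
  unfold growth
  have : Tendsto (fun k : ℕ => ENNReal.ofReal (Real.posLog (n : ℝ) / k)) atTop (𝓝 0) := by
    have h1 : Tendsto (fun k : ℕ => Real.posLog (n : ℝ) / k) atTop (𝓝 0) :=
      tendsto_const_div_atTop_nhds_zero_nat _
    have h2 := (ENNReal.continuous_ofReal.tendsto 0).comp h1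
    simpa [Function.comp_def] using h2
  exact this.limsup_eq

theorem dist_nonneg' (φ ψ : G) : 0 ≤ B.dist φ ψ := by
  have h := B.dist_triangle φ ψ φ
  rw [B.dist_self, B.dist_comm ψ φ] at h
  linarith

theorem dist_pow (φ ψ : G) (k : ℕ) : B.dist (φ ^ k) (ψ ^ k) ≤ k * B.dist φ ψ := by
  induction k with
  | zero => simp [B.dist_self]
  | succ k ih =>
    have h := B.dist_triangle (φ ^ (k + 1)) (φ ^ k * ψ) (ψ ^ (k + 1))
    rw [pow_succ φ, B.dist_mul_left, pow_succ ψ, B.dist_mul_right] at h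
    rw [pow_succ φ, pow_succ ψ]
    push_cast
    linarith

theorem scale_le {φ ψ : G} {ℓ e : ℕ → ℝ} (hℓ : ∀ᶠ k in atTop, 0 < ℓ k)
    (he : ∀ᶠ k in atTop, B.dist (φ ^ k) (ψ ^ k) < e k) :
    scaleEntropy B (fun k => ℓ k + 2 * e k) φ ≤ scaleEntropy B ℓ ψ := by
  apply growth_mono
  filter_upwards [hℓ, he] with k h1 h2
  exact B.stable _ _ _ _ h1 h2

theorem entropyAt_anti (φ : G) {ε ε' : ℝ} (h : 0 < ε) (h' : ε ≤ ε') :
    entropyAt B ε' φ ≤ entropyAt B ε φ :=
  growth_mono (Eventually.of_forall fun _ => B.bars_anti _ _ _ h h')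

theorem scale_anti (φ : G) {ℓ ℓ' : ℕ → ℝ} (h : ∀ᶠ k in atTop, 0 < ℓ k ∧ ℓ k ≤ ℓ' k) :
    scaleEntropy B ℓ' φ ≤ scaleEntropy B ℓ φ := by
  apply growth_mono
  filter_upwards [h] with k hk
  exact B.bars_anti _ _ _ hk.1 hk.2

theorem entropyAt_le (φ : G) {ε : ℝ} (h : 0 < ε) : entropyAt B ε φ ≤ barEntropy B φ :=
  le_iSup (fun ε : Set.Ioi (0 : ℝ) => entropyAt B ε φ) ⟨ε, h⟩

theorem scale_le_linear (φ : G) {c : ℝ} (h : 0 < c) :
    scaleEntropy B (fun k => c * k) φ ≤ linearEntropy B φ :=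
  le_iSup (fun c : Set.Ioi (0 : ℝ) => scaleEntropy B (fun k => c * k) φ) ⟨c, h⟩

theorem linear_le_at (φ : G) {ε : ℝ} (h : 0 < ε) : linearEntropy B φ ≤ entropyAt B ε φ := by
  apply iSup_le
  rintro ⟨c, hc⟩
  have hc' : 0 < c := hc
  apply growth_mono
  have : Tendsto (fun k : ℕ => c * (k : ℝ)) atTop atTop :=
    tendsto_natCast_atTop_atTop.const_mul_atTop hc'
  filter_upwards [this.eventually_ge_atTop ε] with k hk
  exact B.bars_anti _ _ _ h hk

theorem tendsto_entropyAt (φ : G) :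
    Tendsto (fun ε => entropyAt B ε φ) (𝓝[>] 0) (𝓝 (barEntropy B φ)) := by
  apply tendsto_order.2 ⟨fun a ha => ?_, fun a ha => ?_⟩
  · obtain ⟨⟨ε, hε⟩, h⟩ := lt_iSup_iff.1 ha
    have hε' : 0 < ε := hε
    filter_upwards [Ioo_mem_nhdsGT hε'] with x hx
    exact h.trans_le (entropyAt_anti B φ hx.1 hx.2.le)
  · filter_upwards [self_mem_nhdsWithin] with x hx
    exact (entropyAt_le B φ hx).trans_lt ha

theorem tendsto_linear (φ : G) :
    Tendsto (fun c : ℝ => scaleEntropy B (fun k => c * k) φ) (𝓝[>] 0)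
      (𝓝 (linearEntropy B φ)) := by
  apply tendsto_order.2 ⟨fun a ha => ?_, fun a ha => ?_⟩
  · obtain ⟨⟨ε, hε⟩, h⟩ := lt_iSup_iff.1 ha
    have hε' : 0 < ε := hε
    filter_upwards [Ioo_mem_nhdsGT hε'] with x hx
    refine h.trans_le (scale_anti B φ ?_)
    filter_upwards [eventually_gt_atTop 0] with k hk
    have hk' : (0 : ℝ) < k := by exact_mod_cast hk
    exact ⟨mul_pos hx.1 hk', mul_le_mul_of_nonneg_right hx.2.le hk'.le⟩
  · filter_upwards [self_mem_nhdsWithin] with x hx
    exact (scale_le_linear B φ hx).trans_lt ha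

/-- One step of the comparison at linear scale. -/
theorem linear_step {φ ψ : G} {c : ℝ} (hc : 0 < c)
    (h : ∀ᶠ k : ℕ in atTop, B.dist (φ ^ k) (ψ ^ k) < c / 4 * k) :
    scaleEntropy B (fun k => c * k) φ ≤ linearEntropy B ψ := by
  refine le_trans ?_ (scale_le_linear B ψ (half_pos hc))
  have h1 := scale_le B (φ := φ) (ψ := ψ) (ℓ := fun k => c / 2 * k) (e := fun k => c / 4 * k)
    (by
      filter_upwards [eventually_gt_atTop 0] with k hk
      have hk' : (0 : ℝ) < k := by exact_mod_cast hk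
      positivity) h
  have e : (fun k : ℕ => c / 2 * (k : ℝ) + 2 * (c / 4 * k)) = fun k : ℕ => c * (k : ℝ) := by
    funext k
    ring
  rw [e] at h1
  exact h1

theorem linear_lsc' {φ : G} {u : ℕ → G}
    (h : ∀ δ > (0 : ℝ), ∀ᶠ i in atTop, ∀ᶠ k : ℕ in atTop, B.dist (φ ^ k) (u i ^ k) < δ * k) :
    linearEntropy B φ ≤ liminf (fun i => linearEntropy B (u i)) atTop := by
  apply iSup_le
  rintro ⟨c, hc⟩
  have hc' : 0 < c := hc
  apply le_liminf_of_le
  · isBoundedDefault
  · filter_upwards [h (c / 4) (by positivity)] with i hi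
    exact linear_step B hc' hi

/-- Closeness in the pseudo-distance gives linear closeness of the iterates. -/
theorem linear_close {φ : G} {u : ℕ → G} (hu : Tendsto (fun i => B.dist (u i) φ) atTop (𝓝 0)) :
    ∀ δ > (0 : ℝ), ∀ᶠ i in atTop, ∀ᶠ k : ℕ in atTop, B.dist (φ ^ k) (u i ^ k) < δ * k := by
  intro δ hδ
  filter_upwards [hu.eventually_lt_const hδ] with i hi
  filter_upwards [eventually_gt_atTop 0] with k hk
  have hk' : (0 : ℝ) < k := by exact_mod_cast hk
  calc B.dist (φ ^ k) (u i ^ k) ≤ k * B.dist φ (u i) := dist_pow B φ (u i) k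
    _ = B.dist (u i) φ * k := by rw [B.dist_comm φ (u i), mul_comm]
    _ < δ * k := mul_lt_mul_of_pos_right hi hk'

theorem linear_lsc (φ : G) : LscAt B (linearEntropy B) φ :=
  fun _ hu => linear_lsc' B (linear_close B hu)

theorem linear_le (φ : G) : linearEntropy B φ ≤ barEntropy B φ :=
  (linear_le_at B φ one_pos).trans (entropyAt_le B φ one_pos)

theorem bar_lsc_of_linear (φ : G) (h : barEntropy B φ = linearEntropy B φ) :
    LscAt B (barEntropy B) φ := by
  intro u hu
  rw [h]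
  refine (linear_lsc B φ u hu).trans ?_
  apply liminf_le_liminf
  · exact Eventually.of_forall fun i => linear_le B (u i)
  · isBoundedDefault
  · isBoundedDefault

theorem large_scale (φ : G) {c : ℝ} (h : 2 * B.dist φ 1 < c) :
    scaleEntropy B (fun k => c * k) φ = 0 := by
  have hd := dist_nonneg' B φ 1
  have hc : 0 < c := by linarith
  set δ : ℝ := (c / 2 + B.dist φ 1) / 2 with hδ
  have h1 : B.dist φ 1 < δ := by rw [hδ]; linarith
  have h2 : 2 * δ < c := by rw [hδ]; linarith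
  refine le_antisymm ?_ bot_le
  rw [← growth_const (B.bars (c - 2 * δ) 1)]
  apply growth_mono
  filter_upwards [eventually_ge_atTop 1] with k hk
  have hk' : (1 : ℝ) ≤ k := by exact_mod_cast hk
  have h3 : B.dist (φ ^ k) 1 < δ * k := by
    have := dist_pow B φ 1 k
    rw [one_pow] at this
    have h4 : (k : ℝ) * B.dist φ 1 < k * δ := mul_lt_mul_of_pos_left h1 (by linarith)
    linarith
  have h5 := B.stable (φ ^ k) 1 ((c - 2 * δ) * k) (δ * k)
    (mul_pos (by linarith) (by linarith)) h3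
  have e : (c - 2 * δ) * (k : ℝ) + 2 * (δ * k) = c * k := by ring
  rw [e] at h5
  refine h5.trans (B.bars_anti _ _ _ (by linarith) ?_)
  nlinarith

theorem uniform_lsc {φ : G} {u : ℕ → G}
    (h : ∀ η > (0 : ℝ), ∀ᶠ i in atTop, ∀ᶠ k in atTop, B.dist (φ ^ k) (u i ^ k) < η) :
    barEntropy B φ ≤ liminf (fun i => barEntropy B (u i)) atTop := by
  apply iSup_le
  rintro ⟨ε, hε⟩
  have hε' : 0 < ε := hε
  apply le_liminf_of_le
  · isBoundedDefault
  · filter_upwards [h (ε / 4) (by positivity)] with i hi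
    refine le_trans ?_ (entropyAt_le B (u i) (half_pos hε'))
    have h1 := scale_le B (φ := φ) (ψ := u i) (ℓ := fun _ => ε / 2) (e := fun _ => ε / 4)
      (Eventually.of_forall fun _ => by positivity) hi
    have e : (fun _ : ℕ => ε / 2 + 2 * (ε / 4)) = fun _ : ℕ => ε := by
      funext k
      ring
    rw [e] at h1
    exact h1

/-- Powers of a supermultiplicative sequence. -/
theorem super_pow {x : ℕ → ℕ} {C : ℝ} (hC : 1 ≤ C)
    (h : ∀ k l : ℕ, 1 ≤ k → 1 ≤ l → (x k : ℝ) * x l ≤ C * x (k + l)) {k : ℕ} (hk : 1 ≤ k) (n : ℕ) :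
    (x k : ℝ) ^ (n + 1) ≤ C ^ (n + 1) * x ((n + 1) * k) := by
  induction n with
  | zero =>
    simp only [zero_add, pow_one, one_mul]
    exact le_mul_of_one_le_left (Nat.cast_nonneg _) hC
  | succ n ih =>
    have h1 := h ((n + 1) * k) k (by nlinarith) hk
    have e : (n + 1) * k + k = (n + 1 + 1) * k := by ring
    rw [e] at h1
    calc (x k : ℝ) ^ (n + 1 + 1) = (x k : ℝ) ^ (n + 1) * x k := pow_succ _ _
      _ ≤ (C ^ (n + 1) * x ((n + 1) * k)) * x k :=
          mul_le_mul_of_nonneg_right ih (Nat.cast_nonneg _)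
      _ = C ^ (n + 1) * ((x ((n + 1) * k) : ℝ) * x k) := by ring
      _ ≤ C ^ (n + 1) * (C * x ((n + 1 + 1) * k)) :=
          mul_le_mul_of_nonneg_left h1 (by positivity)
      _ = C ^ (n + 1 + 1) * x ((n + 1 + 1) * k) := by ring

/-- A supermultiplicative sequence grows at least as fast as any of its members says. -/
theorem super_growth {x : ℕ → ℕ} {C : ℝ} (hC : 1 ≤ C)
    (h : ∀ k l : ℕ, 1 ≤ k → 1 ≤ l → (x k : ℝ) * x l ≤ C * x (k + l)) {k : ℕ} (hk : 1 ≤ k) :
    ENNReal.ofReal ((Real.posLog (x k) - Real.log C) / k) ≤ growth x := by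
  have hk' : (0 : ℝ) < k := by exact_mod_cast hk
  rcases Nat.eq_zero_or_pos (x k) with h0 | h0
  · have : (Real.posLog (x k) - Real.log C) / k ≤ 0 := by
      rw [h0]
      apply div_nonpos_of_nonpos_of_nonneg _ hk'.le
      simp only [Nat.cast_zero, Real.posLog_zero, zero_sub]
      exact neg_nonpos.2 (Real.log_nonneg hC)
    rw [ENNReal.ofReal_of_nonpos this]
    exact bot_le
  unfold growth
  apply le_limsup_of_frequently_le
  · rw [frequently_atTop]
    intro N
    refine ⟨(N + 1) * k, by nlinarith, ?_⟩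
    apply ENNReal.ofReal_le_ofReal
    have hx : (1 : ℝ) ≤ x k := by exact_mod_cast h0
    have h1 := super_pow hC h hk N
    have hN : (0 : ℝ) < (N : ℝ) + 1 := by positivity
    have hpos : (0 : ℝ) < x ((N + 1) * k) := by
      have h2 : (0 : ℝ) < (x k : ℝ) ^ (N + 1) := by positivity
      have h3 : (0 : ℝ) < C ^ (N + 1) := by positivity
      by_contra hc
      have h4 : (x ((N + 1) * k) : ℝ) ≤ 0 := not_lt.1 hc
      have h5 : C ^ (N + 1) * (x ((N + 1) * k) : ℝ) ≤ 0 :=
        mul_nonpos_of_nonneg_of_nonpos h3.le h4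
      linarith
    have h6 : ((N : ℝ) + 1) * Real.log (x k) ≤
        ((N : ℝ) + 1) * Real.log C + Real.log (x ((N + 1) * k)) := by
      have := Real.log_le_log (by positivity) h1
      rw [Real.log_pow, Real.log_mul (by positivity) hpos.ne', Real.log_pow] at this
      push_cast at this
      exact this
    have h7 : Real.posLog (x k) = Real.log (x k) := by
      rw [Real.posLog_eq_log]
      rw [abs_of_nonneg (by positivity)]
      exact hx
    have h8 : Real.log (x ((N + 1) * k)) ≤ Real.posLog (x ((N + 1) * k)) := by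
      unfold Real.posLog
      exact le_max_right _ _
    rw [h7, div_le_div_iff₀ hk' (by push_cast; positivity)]
    push_cast
    nlinarith
  · isBoundedDefault

theorem super_lsc (φ : G) (h : SupermultiplicativeNear B φ) : LscAt B (barEntropy B) φ := by
  obtain ⟨r, hr, H⟩ := h
  intro u hu
  apply le_of_forall_lt
  intro a ha
  obtain ⟨⟨ε', hε'⟩, h1⟩ := lt_iSup_iff.1 ha
  have hε'' : 0 < ε' := hε'
  set ε : ℝ := min (ε' / 3) (r / 2) with hε
  have ε0 : 0 < ε := by rw [hε]; positivity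
  have ε1 : 3 * ε ≤ ε' := by
    have := min_le_left (ε' / 3) (r / 2)
    rw [← hε] at this
    linarith
  have ε2 : ε < r := by
    have := min_le_right (ε' / 3) (r / 2)
    rw [← hε] at this
    linarith
  have h2 : a < entropyAt B (3 * ε) φ :=
    h1.trans_le (entropyAt_anti B φ (by positivity) ε1)
  obtain ⟨C₀, hC₀⟩ := H ε ε0 ε2
  set C : ℝ := max C₀ 1 with hCdef
  have hC1 : 1 ≤ C := le_max_right _ _
  obtain ⟨a₁, ha₁, ha₂⟩ := exists_between h2
  obtain ⟨a₂, ha₃, ha₄⟩ := exists_between ha₂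
  have hfin : a₂ ≠ ⊤ := ne_top_of_lt ha₄
  have hfin1 : a₁ ≠ ⊤ := ne_top_of_lt ha₃
  -- many `k` with `a₂ < log⁺ b / k`
  have hfreq : ∃ᶠ k : ℕ in atTop,
      a₂ < ENNReal.ofReal (Real.posLog (B.bars (3 * ε) (φ ^ k)) / k) :=
    frequently_lt_of_lt_limsup (by isBoundedDefault) ha₄
  have hgap : 0 < a₂.toReal - a₁.toReal := by
    have := (ENNReal.toReal_lt_toReal hfin1 hfin).2 ha₃
    linarith
  have hlog : ∀ᶠ k : ℕ in atTop, Real.log C / k < a₂.toReal - a₁.toReal :=
    (tendsto_const_div_atTop_nhds_zero_nat (Real.log C)).eventually_lt_const hgap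
  obtain ⟨k, hk1, hk2, hk3⟩ := (hfreq.and_eventually (hlog.and (eventually_ge_atTop 1))).exists
  have hk' : (0 : ℝ) < k := by exact_mod_cast hk3
  refine lt_of_lt_of_le ha₁ ?_
  apply le_liminf_of_le
  · isBoundedDefault
  · filter_upwards [hu.eventually_lt_const (by positivity : (0 : ℝ) < min r (ε / k))] with i hi
    have hi1 : B.dist (u i) φ < r := hi.trans_le (min_le_left _ _)
    have hi2 : B.dist (u i) φ < ε / k := hi.trans_le (min_le_right _ _)
    have hsup : ∀ m l : ℕ, 1 ≤ m → 1 ≤ l →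
        (B.bars ε (u i ^ m) : ℝ) * B.bars ε (u i ^ l) ≤ C * B.bars ε (u i ^ (m + l)) := by
      intro m l hm hl
      exact (hC₀ (u i) hi1 m l hm hl).trans
        (mul_le_mul_of_nonneg_right (le_max_left _ _) (Nat.cast_nonneg _))
    have hgr := super_growth hC1 (x := fun m => B.bars ε (u i ^ m)) hsup hk3
    refine le_trans ?_ (hgr.trans (entropyAt_le B (u i) ε0))
    have hb : B.bars (3 * ε) (φ ^ k) ≤ B.bars ε (u i ^ k) := by
      have hd : B.dist (φ ^ k) (u i ^ k) < ε := by
        have h3 := dist_pow B φ (u i) k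
        rw [B.dist_comm φ (u i)] at h3
        have h4 : (k : ℝ) * B.dist (u i) φ < k * (ε / k) := mul_lt_mul_of_pos_left hi2 hk'
        rw [mul_div_cancel₀ _ hk'.ne'] at h4
        linarith
      have := B.stable _ _ ε ε ε0 hd
      have e : ε + 2 * ε = 3 * ε := by ring
      rwa [e] at this
    have hb' : Real.posLog (B.bars (3 * ε) (φ ^ k)) ≤ Real.posLog (B.bars ε (u i ^ k)) :=
      Real.posLog_le_posLog (Nat.cast_nonneg _) (by exact_mod_cast hb)
    have h5 : a₂.toReal < Real.posLog (B.bars (3 * ε) (φ ^ k)) / k := by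
      by_contra hc
      have h6 := ENNReal.ofReal_le_ofReal (not_lt.1 hc)
      rw [ENNReal.ofReal_toReal hfin] at h6
      exact absurd hk1 (not_lt.2 h6)
    rw [← ENNReal.ofReal_toReal hfin1]
    apply ENNReal.ofReal_le_ofReal
    rw [sub_div]
    have h7 : Real.posLog (B.bars (3 * ε) (φ ^ k)) / k ≤ Real.posLog (B.bars ε (u i ^ k)) / k :=
      div_le_div_of_nonneg_right hb' hk'.le
    linarith

end Pool.Agent.H91.BE
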