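import Mathlib

/-!
# Bar systems and their barcode entropies (MP_13cea9_gt)

The barcode entropy of Hamiltonian diffeomorphisms uses the Floer barcodes only through the numbers
`b_ε(φ)` of bars longer than `ε`. The definitions below are for an arbitrary group with a
bi-invariant pseudo-distance and bar counts which satisfy the stability inequality. By published
theorems (outside this file) the group of Hamiltonian diffeomorphisms of a closed weakly monotone
symplectic manifold is such a bar system for the Hofer and for the spectral distance.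
-/

set_option autoImplicit false

open Filter Topology
open scoped ENNReal

namespace Pool.Agent.H91.BE

/-- A group with a bi-invariant pseudo-distance `dist` and the numbers `bars ε φ` of bars of length
greater than `ε`, subject to stability: if `φ` and `ψ` are closer than `δ`, then the bars of `φ`
longer than `ε + 2 δ` are at most as many as the bars of `ψ` longer than `ε`. -/
structure BarSystem (G : Type) [Group G] where
  dist : G → G → ℝ
  dist_self : ∀ φ, dist φ φ = 0
  dist_comm : ∀ φ ψ, dist φ ψ = dist ψ φ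
  dist_triangle : ∀ φ ψ χ, dist φ χ ≤ dist φ ψ + dist ψ χ
  dist_mul_left : ∀ χ φ ψ, dist (χ * φ) (χ * ψ) = dist φ ψ
  dist_mul_right : ∀ χ φ ψ, dist (φ * χ) (ψ * χ) = dist φ ψ
  bars : ℝ → G → ℕ
  bars_anti : ∀ φ ε ε', 0 < ε → ε ≤ ε' → bars ε' φ ≤ bars ε φ
  stable : ∀ φ ψ ε δ, 0 < ε → dist φ ψ < δ → bars (ε + 2 * δ) φ ≤ bars ε ψ

/-- The upper limit of `log⁺ (b k) / k`. -/
noncomputable def growth (b : ℕ → ℕ) : ℝ≥0∞ :=
  limsup (fun k : ℕ => ENNReal.ofReal (Real.posLog (b k) / k)) atTop

variable {G : Type} [Group G] (B : BarSystem G)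

/-- `ħ_ε(φ)`: growth of the number of bars of `φ ^ k` longer than `ε`. -/
noncomputable def entropyAt (ε : ℝ) (φ : G) : ℝ≥0∞ := growth fun k => B.bars ε (φ ^ k)

/-- The barcode entropy `ħ(φ)`, the limit of `ħ_ε(φ)` for `ε → 0+` (a supremum by monotonicity). -/
noncomputable def barEntropy (φ : G) : ℝ≥0∞ := ⨆ ε : Set.Ioi (0 : ℝ), entropyAt B ε φ

/-- Growth of the number of bars of `φ ^ k` longer than `ℓ k`. -/
noncomputable def scaleEntropy (ℓ : ℕ → ℝ) (φ : G) : ℝ≥0∞ := growth fun k => B.bars (ℓ k) (φ ^ k)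

/-- The part of the entropy carried by bars of linear length: the limit for `c → 0+` of the growth
of the number of bars of `φ ^ k` longer than `c k`. -/
noncomputable def linearEntropy (φ : G) : ℝ≥0∞ :=
  ⨆ c : Set.Ioi (0 : ℝ), scaleEntropy B (fun k => c * k) φ

/-- `f` is lower semicontinuous at `φ` for the pseudo-distance. -/
def LscAt (f : G → ℝ≥0∞) (φ : G) : Prop :=
  ∀ u : ℕ → G, Tendsto (fun i => B.dist (u i) φ) atTop (𝓝 0) →
    f φ ≤ liminf (fun i => f (u i)) atTop

/-- Supermultiplicativity near `φ`: for every small `ε` there is `C` such that for all `ψ` near `φ`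
the product of the numbers of bars of `ψ ^ k` and of `ψ ^ l` longer than `ε` is at most `C` times
the number for `ψ ^ (k + l)`. -/
def SupermultiplicativeNear (φ : G) : Prop :=
  ∃ r : ℝ, 0 < r ∧ ∀ ε, 0 < ε → ε < r → ∃ C : ℝ, ∀ ψ, B.dist ψ φ < r →
    ∀ k l : ℕ, 1 ≤ k → 1 ≤ l →
      (B.bars ε (ψ ^ k) : ℝ) * B.bars ε (ψ ^ l) ≤ C * B.bars ε (ψ ^ (k + l))

end Pool.Agent.H91.BE
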