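import Pool.Agent.H91.BE.Base

/-! Every bar system on `G` extends to one on `G × ℝ` in which the barcode entropy at `(φ, x)` tends
to the linear entropy of `φ` for `x → 0`. -/

set_option autoImplicit false

open Filter Topology
open scoped ENNReal

namespace Pool.Agent.H91.BE

variable {G : Type} [Group G] (B : BarSystem G)

/-- All bars of `φ` shortened by `2 |x|`. -/
noncomputable def ext : BarSystem (G × Multiplicative ℝ) where
  dist p q := B.dist p.1 q.1 + |Multiplicative.toAdd p.2 - Multiplicative.toAdd q.2|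
  dist_self p := by simp [B.dist_self]
  dist_comm p q := by rw [B.dist_comm, abs_sub_comm]
  dist_triangle p q r := by
    have h1 := B.dist_triangle p.1 q.1 r.1
    have h2 := abs_sub_le (Multiplicative.toAdd p.2) (Multiplicative.toAdd q.2)
      (Multiplicative.toAdd r.2)
    linarith
  dist_mul_left r p q := by simp [B.dist_mul_left]
  dist_mul_right r p q := by simp [B.dist_mul_right]
  bars ε p := B.bars (ε + 2 * |Multiplicative.toAdd p.2|) p.1
  bars_anti p ε ε' h h' := by
    apply B.bars_anti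
    · have := abs_nonneg (Multiplicative.toAdd p.2)
      linarith
    · linarith
  stable p q ε δ hε h := by
    have h1 := abs_nonneg (Multiplicative.toAdd p.2)
    have h2 := abs_nonneg (Multiplicative.toAdd p.2 - Multiplicative.toAdd q.2)
    have h3 := abs_sub_abs_le_abs_sub (Multiplicative.toAdd q.2) (Multiplicative.toAdd p.2)
    rw [abs_sub_comm] at h3
    have h4 := B.stable p.1 q.1
      (ε + 2 * |Multiplicative.toAdd p.2| + 2 * |Multiplicative.toAdd p.2 - Multiplicative.toAdd q.2|)
      (δ - |Multiplicative.toAdd p.2 - Multiplicative.toAdd q.2|) (by linarith) (by linarith)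
    have e : ε + 2 * |Multiplicative.toAdd p.2| +
        2 * |Multiplicative.toAdd p.2 - Multiplicative.toAdd q.2| +
        2 * (δ - |Multiplicative.toAdd p.2 - Multiplicative.toAdd q.2|) =
        ε + 2 * δ + 2 * |Multiplicative.toAdd p.2| := by ring
    rw [e] at h4
    refine h4.trans (B.bars_anti _ _ _ ?_ ?_)
    · have := abs_nonneg (Multiplicative.toAdd q.2)
      linarith
    · linarith

theorem ext_bars_pow (ε : ℝ) (φ : G) (x : ℝ) (k : ℕ) :
    (ext B).bars ε ((φ, Multiplicative.ofAdd x) ^ k) = B.bars (ε + 2 * |x| * k) (φ ^ k) := by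
  show B.bars (ε + 2 * |Multiplicative.toAdd ((φ, Multiplicative.ofAdd x) ^ k).2|)
    ((φ, Multiplicative.ofAdd x) ^ k).1 = _
  have h1 : ((φ, Multiplicative.ofAdd x) ^ k).1 = φ ^ k := rfl
  have h2 : Multiplicative.toAdd ((φ, Multiplicative.ofAdd x) ^ k).2 = k * x := by
    simp
  rw [h1, h2, abs_mul, Nat.abs_cast]
  congr 1
  ring

theorem ext_le (φ : G) {x : ℝ} (hx : x ≠ 0) :
    barEntropy (ext B) (φ, Multiplicative.ofAdd x) ≤ linearEntropy B φ := by
  have hx' : 0 < 2 * |x| := by
    have := abs_pos.2 hx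
    positivity
  refine le_trans ?_ (scale_le_linear B φ hx')
  apply iSup_le
  rintro ⟨ε, hε⟩
  have hε' : 0 < ε := hε
  apply growth_mono
  filter_upwards [eventually_gt_atTop 0] with k hk
  have hk' : (0 : ℝ) < k := by exact_mod_cast hk
  rw [ext_bars_pow]
  exact B.bars_anti _ _ _ (mul_pos hx' hk') (by linarith)

theorem le_ext (φ : G) {x : ℝ} (hx : x ≠ 0) :
    scaleEntropy B (fun k => 4 * |x| * k) φ ≤
      barEntropy (ext B) (φ, Multiplicative.ofAdd x) := by
  have hx' : 0 < 2 * |x| := by
    have := abs_pos.2 hx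
    positivity
  refine le_trans ?_ (entropyAt_le (ext B) _ one_pos)
  apply growth_mono
  have : Tendsto (fun k : ℕ => 2 * |x| * (k : ℝ)) atTop atTop :=
    tendsto_natCast_atTop_atTop.const_mul_atTop hx'
  filter_upwards [this.eventually_ge_atTop 1] with k hk
  rw [ext_bars_pow]
  exact B.bars_anti _ _ _ (by linarith) (by linarith)

theorem tendsto_ext (φ : G) :
    Tendsto (fun x : ℝ => barEntropy (ext B) (φ, Multiplicative.ofAdd x)) (𝓝[≠] 0)
      (𝓝 (linearEntropy B φ)) := by
  have h0 : Tendsto (fun x : ℝ => 4 * |x|) (𝓝[≠] 0) (𝓝[>] 0) := by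
    apply tendsto_nhdsWithin_of_tendsto_nhds_of_eventually_within
    · have h1 : Tendsto (fun x : ℝ => 4 * |x|) (𝓝 0) (𝓝 (4 * |0|)) :=
        (continuous_const.mul continuous_abs).tendsto 0
      rw [abs_zero, mul_zero] at h1
      exact h1.mono_left nhdsWithin_le_nhds
    · filter_upwards [self_mem_nhdsWithin] with x hx
      have : 0 < |x| := abs_pos.2 hx
      show 0 < 4 * |x|
      positivity
  have h1 := (tendsto_linear B φ).comp h0
  refine tendsto_of_tendsto_of_tendsto_of_le_of_le' h1 tendsto_const_nhds ?_ ?_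
  · filter_upwards [self_mem_nhdsWithin] with x hx
    exact le_ext B φ hx
  · filter_upwards [self_mem_nhdsWithin] with x hx
    exact ext_le B φ hx

theorem ext_model : ∃ B' : BarSystem (G × Multiplicative ℝ),
    (∀ (φ ψ : G) (x y : ℝ), B'.dist (φ, Multiplicative.ofAdd x) (ψ, Multiplicative.ofAdd y) =
      B.dist φ ψ + |x - y|) ∧
    (∀ (ε : ℝ) (φ : G) (x : ℝ),
      B'.bars ε (φ, Multiplicative.ofAdd x) = B.bars (ε + 2 * |x|) φ) ∧
    ∀ φ : G, Tendsto (fun x : ℝ => barEntropy B' (φ, Multiplicative.ofAdd x)) (𝓝[≠] 0)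
      (𝓝 (linearEntropy B φ)) :=
  ⟨ext B, fun _ _ _ _ => rfl, fun _ _ _ => rfl, tendsto_ext B⟩

end Pool.Agent.H91.BE
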