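import Pool.Agent.H79.BE.Generic

/-! The bar system on the real line: no lower semicontinuity at generic points. -/

set_option autoImplicit false

open Filter Topology
open scoped ENNReal

namespace Pool.Agent.H91.BE

theorem line_not_lsc {B : BarSystem (Multiplicative ℝ)}
    (hd : ∀ x y : ℝ, B.dist (Multiplicative.ofAdd x) (Multiplicative.ofAdd y) = |x - y|)
    (h0 : ∀ r : ℚ, 1 ≤ r → barEntropy B (Multiplicative.ofAdd (r : ℝ)) = 0) {x : ℝ} (hx : 1 ≤ x)
    (h1 : ENNReal.ofReal (Real.log 2) ≤ barEntropy B (Multiplicative.ofAdd x)) :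
    ¬ LscAt B (barEntropy B) (Multiplicative.ofAdd x) := by
  intro h
  have h2 : ∀ i : ℕ, ∃ r : ℚ, x < r ∧ (r : ℝ) < x + 1 / ((i : ℝ) + 1) := by
    intro i
    apply exists_rat_btwn
    have : (0 : ℝ) < 1 / ((i : ℝ) + 1) := by positivity
    linarith
  choose r hr1 hr2 using h2
  have h3 := h (fun i => Multiplicative.ofAdd (r i : ℝ)) (by
    simp only [hd]
    refine squeeze_zero (fun i => abs_nonneg _) (fun i => ?_)
      tendsto_one_div_add_atTop_nhds_zero_nat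
    rw [abs_of_pos (by linarith [hr1 i])]
    linarith [hr2 i])
  have h4 : ∀ i, barEntropy B (Multiplicative.ofAdd (r i : ℝ)) = 0 := by
    intro i
    apply h0
    have h5 : (1 : ℝ) < r i := lt_of_le_of_lt hx (hr1 i)
    exact_mod_cast h5.le
  simp only [h4, liminf_const] at h3
  have h5 : 0 < ENNReal.ofReal (Real.log 2) := ENNReal.ofReal_pos.2 (Real.log_pos (by norm_num))
  exact absurd (h1.trans h3) (not_le.2 h5)

theorem line_model : ∃ B : BarSystem (Multiplicative ℝ),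
    (∀ x y : ℝ, B.dist (Multiplicative.ofAdd x) (Multiplicative.ofAdd y) = |x - y|) ∧
    (∀ ε g, 1 ≤ B.bars ε g) ∧ (∀ ε g, B.bars ε g⁻¹ = B.bars ε g) ∧
    (∀ g, barEntropy B g < ⊤) ∧
    (∀ r : ℚ, 1 ≤ r → barEntropy B (Multiplicative.ofAdd (r : ℝ)) = 0) ∧
    ∃ R ∈ residual ℝ, ∀ x ∈ R, 1 ≤ x →
      ENNReal.ofReal (Real.log 2) ≤ barEntropy B (Multiplicative.ofAdd x) ∧
      ¬ LscAt B (barEntropy B) (Multiplicative.ofAdd x) := by
  obtain ⟨B, h1, h2, h3, h4, h5, R, hR, h6⟩ := Pool.Agent.H79.BE.Gen.generic_model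
  exact ⟨B, h1, h2, h3, h4, h5, R, hR, fun x hx h =>
    ⟨h6 x hx h, line_not_lsc h1 h5 h (h6 x hx h)⟩⟩

end Pool.Agent.H91.BE
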