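import Pool.Agent.H91.BE.Base

/-! Barcode entropy along continuous families: continuity on a residual set of parameters. -/

set_option autoImplicit false

open Filter Topology
open scoped ENNReal

namespace Pool.Agent.H91.BE

variable {G : Type} [Group G] (B : BarSystem G) {T : Type} [TopologicalSpace T] (F : T → G)

/-- A rational threshold. -/
noncomputable def th (a : ℚ) : ℝ≥0∞ := ((a : ℝ).toNNReal : ℝ≥0∞)

/-- Parameters with `ħ_ε` above the threshold. -/
def Above (ε : ℝ) (a : ℝ≥0∞) : Set T := {t | a < entropyAt B ε (F t)}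

/-- Parameters with many bars at the time `k`. -/
def Many (ε : ℝ) (a : ℝ≥0∞) (k : ℕ) : Set T :=
  {t | a < ENNReal.ofReal (Real.posLog (B.bars ε (F t ^ k)) / k)}

/-- Parameters which robustly have many bars at some time `k ≥ n`. -/
def Robust (ε : ℝ) (a : ℝ≥0∞) (n : ℕ) : Set T := ⋃ k ≥ n, interior (Many B F ε a k)

/-- The open core of the parameters above the threshold. -/
def Core (a : ℝ≥0∞) : Set T := ⋃ q : {q : ℚ // 0 < q}, interior (closure (Above B F (q.1 : ℝ) a))

theorem isOpen_robust (ε : ℝ) (a : ℝ≥0∞) (n : ℕ) : IsOpen (Robust B F ε a n) :=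
  isOpen_biUnion fun _ _ => isOpen_interior

theorem isOpen_core (a : ℝ≥0∞) : IsOpen (Core B F a) := isOpen_iUnion fun _ => isOpen_interior

variable {B F}

theorem many_subset (hF : ∀ t, Tendsto (fun s => B.dist (F s) (F t)) (𝓝 t) (𝓝 0))
    {ε' ε : ℝ} (h0 : 0 < ε') (h : ε' < ε) (a : ℝ≥0∞) (k : ℕ) :
    Many B F ε a k ⊆ interior (Many B F ε' a k) := by
  intro t ht
  rw [mem_interior_iff_mem_nhds]
  have hpos : 0 < (ε - ε') / 2 / (k + 1) := by
    have : 0 < ε - ε' := by linarith
    positivity
  filter_upwards [(hF t).eventually_lt_const hpos] with s hs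
  have hk : (0 : ℝ) < (k : ℝ) + 1 := by positivity
  have h1 : B.dist (F t ^ k) (F s ^ k) < (ε - ε') / 2 := by
    have h2 := dist_pow B (F t) (F s) k
    rw [B.dist_comm (F t) (F s)] at h2
    have h3 : ((k : ℝ) + 1) * B.dist (F s) (F t) < ((k : ℝ) + 1) * ((ε - ε') / 2 / (k + 1)) :=
      mul_lt_mul_of_pos_left hs hk
    rw [mul_div_cancel₀ _ hk.ne'] at h3
    have h4 := dist_nonneg' B (F s) (F t)
    linarith
  have h2 := B.stable _ _ ε' _ h0 h1
  have e : ε' + 2 * ((ε - ε') / 2) = ε := by ring
  rw [e] at h2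
  refine lt_of_lt_of_le ht (ENNReal.ofReal_le_ofReal ?_)
  apply div_le_div_of_nonneg_right _ (Nat.cast_nonneg k)
  exact Real.posLog_le_posLog (Nat.cast_nonneg _) (by exact_mod_cast h2)

theorem above_subset (hF : ∀ t, Tendsto (fun s => B.dist (F s) (F t)) (𝓝 t) (𝓝 0))
    {ε' ε : ℝ} (h0 : 0 < ε') (h : ε' < ε) (a : ℝ≥0∞) (n : ℕ) :
    Above B F ε a ⊆ Robust B F ε' a n := by
  intro t ht
  have h1 : ∃ᶠ k : ℕ in atTop, a < ENNReal.ofReal (Real.posLog (B.bars ε (F t ^ k)) / k) :=
    frequently_lt_of_lt_limsup (by isBoundedDefault) ht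
  obtain ⟨k, hk, h2⟩ := (frequently_atTop.1 h1) n
  exact Set.mem_biUnion (show k ∈ {k | k ≥ n} from hk) (many_subset hF h0 h a k h2)

theorem le_of_robust {ε : ℝ} {a : ℝ≥0∞} {t : T} (h : ∀ n, t ∈ Robust B F ε a n) :
    a ≤ entropyAt B ε (F t) := by
  unfold entropyAt growth
  apply le_limsup_of_frequently_le
  · rw [frequently_atTop]
    intro n
    have h1 := h n
    simp only [Robust, Set.mem_iUnion] at h1
    obtain ⟨k, hk, h2⟩ := h1
    have h3 : t ∈ Many B F ε a k := interior_subset h2
    exact ⟨k, hk, (show a < _ from h3).le⟩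
  · isBoundedDefault

theorem dense_robust (hF : ∀ t, Tendsto (fun s => B.dist (F s) (F t)) (𝓝 t) (𝓝 0))
    {ε' ε : ℝ} (h0 : 0 < ε') (h : ε' < ε) (a : ℝ≥0∞) (n : ℕ) :
    Robust B F ε' a n ∪ (closure (Above B F ε a))ᶜ ∈ residual T := by
  apply residual_of_dense_open
  · exact (isOpen_robust B F ε' a n).union isClosed_closure.isOpen_compl
  · intro t
    rw [closure_union]
    by_cases ht : t ∈ closure (Above B F ε a)
    · exact Or.inl (closure_mono (above_subset hF h0 h a n) ht)
    · exact Or.inr (subset_closure ht)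

theorem compl_frontier_mem {s : Set T} (h : IsClosed s) : (frontier s)ᶜ ∈ residual T := by
  apply residual_of_dense_open
  · exact isClosed_frontier.isOpen_compl
  · rw [← interior_eq_empty_iff_dense_compl]
    exact interior_frontier h

theorem lt_th {x y : ℝ≥0∞} (h : x < y) : ∃ a : ℚ, x < th a ∧ th a < y := by
  obtain ⟨q, _, h1, h2⟩ := ENNReal.lt_iff_exists_rat_btwn.1 h
  exact ⟨q, h1, h2⟩

/-- For a family of elements which is continuous for the pseudo-distance there is a residual set of
parameters on which the barcode entropy is continuous, and at these parameters `ħ_ε` jumps up by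
no more than the change from `ε` to any smaller `ε'`. -/
theorem residual_family (hF : ∀ t, Tendsto (fun s => B.dist (F s) (F t)) (𝓝 t) (𝓝 0)) :
    ∃ R ∈ residual T, ContinuousOn (fun t => barEntropy B (F t)) R ∧
      ∀ t ∈ R, ∀ ε' ε : ℝ, 0 < ε' → ε' < ε →
        limsup (fun s => entropyAt B ε (F s)) (𝓝 t) ≤ entropyAt B ε' (F t) := by
  set R : Set T := {t | (∀ q' q : ℚ, 0 < q' → q' < q → ∀ (a : ℚ) (n : ℕ),
      t ∈ Robust B F q' (th a) n ∪ (closure (Above B F q (th a)))ᶜ) ∧
      (∀ q : ℚ, 0 < q → ∀ a : ℚ, t ∈ (frontier (closure (Above B F q (th a))))ᶜ) ∧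
      ∀ a : ℚ, t ∈ (frontier (Core B F (th a)))ᶜ} with hR
  have hres : R ∈ residual T := by
    have h1 : ∀ᶠ t in residual T, ∀ q' q : ℚ, 0 < q' → q' < q → ∀ (a : ℚ) (n : ℕ),
        t ∈ Robust B F q' (th a) n ∪ (closure (Above B F q (th a)))ᶜ := by
      rw [eventually_countable_forall]
      intro q'
      rw [eventually_countable_forall]
      intro q
      by_cases h0 : 0 < q'
      · by_cases h : q' < q
        · simp only [h0, h, forall_const]
          rw [eventually_countable_forall]
          intro a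
          rw [eventually_countable_forall]
          intro n
          exact dense_robust hF (by exact_mod_cast h0) (by exact_mod_cast h) (th a) n
        · exact Eventually.of_forall fun t _ h' => absurd h' h
      · exact Eventually.of_forall fun t h' => absurd h' h0
    have h2 : ∀ᶠ t in residual T, ∀ q : ℚ, 0 < q → ∀ a : ℚ,
        t ∈ (frontier (closure (Above B F q (th a))))ᶜ := by
      rw [eventually_countable_forall]
      intro q
      by_cases h0 : 0 < q
      · simp only [h0, forall_const]
        rw [eventually_countable_forall]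
        intro a
        exact compl_frontier_mem isClosed_closure
      · exact Eventually.of_forall fun t h' => absurd h' h0
    have h3 : ∀ᶠ t in residual T, ∀ a : ℚ, t ∈ (frontier (Core B F (th a)))ᶜ := by
      rw [eventually_countable_forall]
      intro a
      rw [← frontier_compl]
      exact compl_frontier_mem (isOpen_core B F (th a)).isClosed_compl
    filter_upwards [h1, h2, h3] with t a1 a2 a3
    exact ⟨a1, a2, a3⟩
  -- the first property
  have key : ∀ t ∈ R, ∀ q' q : ℚ, 0 < q' → q' < q → ∀ a : ℚ,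
      t ∈ closure (Above B F q (th a)) → th a ≤ entropyAt B q' (F t) := by
    intro t ht q' q h0 h a hc
    apply le_of_robust
    intro n
    rcases ht.1 q' q h0 h a n with h1 | h1
    · exact h1
    · exact absurd hc h1
  have above_of_lt : ∀ (t : T) (a : ℝ≥0∞), a < barEntropy B (F t) →
      ∃ q : ℚ, 0 < q ∧ t ∈ Above B F q a := by
    intro t a ha
    obtain ⟨⟨ε, hε⟩, h⟩ := lt_iSup_iff.1 ha
    have hε' : 0 < ε := hε
    obtain ⟨q, h1, h2⟩ := exists_rat_btwn hε'
    exact ⟨q, by exact_mod_cast h1, h.trans_le (entropyAt_anti B (F t) h1 h2.le)⟩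
  refine ⟨R, hres, ?_, ?_⟩
  · intro t ht
    apply tendsto_order.2 ⟨fun x hx => ?_, fun x hx => ?_⟩
    · obtain ⟨a, h1, h2⟩ := lt_th hx
      obtain ⟨q, hq, h3⟩ := above_of_lt t (th a) h2
      have h4 : t ∈ interior (closure (Above B F q (th a))) := by
        by_contra hc
        exact ht.2.1 q hq a ⟨by rw [closure_closure]; exact subset_closure h3, hc⟩
      have h5 : ∀ᶠ s in 𝓝[R] t, s ∈ closure (Above B F q (th a)) :=
        mem_nhdsWithin_of_mem_nhds (mem_interior_iff_mem_nhds.1 h4)
      filter_upwards [h5, self_mem_nhdsWithin] with s h6 h7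
      have hq2 : (0 : ℚ) < q / 2 := by positivity
      have h8 := key s h7 (q / 2) q hq2 (by linarith) a h6
      exact (h1.trans_le h8).trans_le (entropyAt_le B (F s) (by exact_mod_cast hq2))
    · obtain ⟨a, h1, h2⟩ := lt_th hx
      have h3 : t ∉ closure (Core B F (th a)) := by
        intro hc
        have h4 : t ∈ interior (Core B F (th a)) := by
          by_contra h5
          exact ht.2.2 a ⟨hc, h5⟩
        have h5 := interior_subset h4
        simp only [Core, Set.mem_iUnion] at h5
        obtain ⟨⟨q, hq⟩, h6⟩ := h5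
        have hq2 : (0 : ℚ) < q / 2 := by positivity
        have h7 := key t ht (q / 2) q hq2 (by linarith) a (interior_subset h6)
        have h8 := h7.trans (entropyAt_le B (F t) (by exact_mod_cast hq2))
        exact absurd h1 (not_lt.2 h8)
      have h4 : ∀ᶠ s in 𝓝[R] t, s ∈ (closure (Core B F (th a)))ᶜ :=
        mem_nhdsWithin_of_mem_nhds (isClosed_closure.isOpen_compl.mem_nhds h3)
      filter_upwards [h4, self_mem_nhdsWithin] with s h5 h6
      refine lt_of_le_of_lt ?_ h2
      by_contra hc
      obtain ⟨q, hq, h7⟩ := above_of_lt s (th a) (not_le.1 hc)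
      have h8 : s ∈ interior (closure (Above B F q (th a))) := by
        by_contra h9
        exact h6.2.1 q hq a ⟨by rw [closure_closure]; exact subset_closure h7, h9⟩
      apply h5
      apply subset_closure
      simp only [Core, Set.mem_iUnion]
      exact ⟨⟨q, hq⟩, h8⟩
  · intro t ht ε' ε h0 h
    obtain ⟨q', h1, h2⟩ := exists_rat_btwn h
    obtain ⟨q, h3, h4⟩ := exists_rat_btwn h2
    have hq0 : (0 : ℝ) < q' := h0.trans h1
    refine le_trans ?_ (entropyAt_anti B (F t) h0 h1.le)
    by_contra hc
    obtain ⟨a, h5, h6⟩ := lt_th (not_le.1 hc)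
    have h7 : ∃ᶠ s in 𝓝 t, th a < entropyAt B ε (F s) :=
      frequently_lt_of_lt_limsup (by isBoundedDefault) h6
    have h8 : t ∈ closure (Above B F q (th a)) := by
      rw [mem_closure_iff_frequently]
      exact h7.mono fun s hs => hs.trans_le (entropyAt_anti B (F s) (hq0.trans h3) h4.le)
    have h9 := key t ht q' q (by exact_mod_cast hq0) (by exact_mod_cast h3) a h8
    exact absurd h5 (not_lt.2 h9)

end Pool.Agent.H91.BE
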